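import Mathlib

/-!
# MP_842b9f_an : a non-integer base which is not an almost variational frequency base

Let `β` be the real root of `β³ = 2β² + 2β + 2` (`β ≈ 2.9196`, so that `m = ⌈β⌉ = 3`).
The words `1000` and `0222`, and the words `1222` and `2000`, have the same value in base `β`; so
every word has the same value as a word avoiding `1000` and `1222` with at most as many digits `1`.
The number of such words of length `n` grows like `βⁿ`, and exponentially few of them have at most
`(1/3 + κ) n` digits `1`.  Hence for almost every `x` *every* expansion of `x` has lower frequency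
of the digit `1` at least `1/3 + κ`.
-/

namespace Pool.Agent.Results.MP_842b9f_an.MiddleDigit

open Filter MeasureTheory Topology Set
open scoped ENNReal

/-- `ε` (indexed from `0`) is a `β`-expansion of `x` with digits in `{0, …, ⌈β⌉ - 1}`. -/
def IsExpansion (β : ℝ) (ε : ℕ → ℕ) (x : ℝ) : Prop :=
  (∀ i, ε i < ⌈β⌉₊) ∧ HasSum (fun i : ℕ => (ε i : ℝ) / β ^ (i + 1)) x

/-- The number of `i < n` with `ε i = j`. -/
def digitCount (ε : ℕ → ℕ) (j n : ℕ) : ℕ := ((Finset.range n).filter (fun i => ε i = j)).card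

/-- The digit `j` has frequency `p` in `ε`. -/
def HasFreq (ε : ℕ → ℕ) (j : ℕ) (p : ℝ) : Prop :=
  Tendsto (fun n : ℕ => (digitCount ε j n : ℝ) / n) atTop (𝓝 p)

/-- `β` is an almost variational frequency base. -/
def AlmostVariational (β : ℝ) : Prop :=
  ∃ c : ℝ, 0 < c ∧ ∀ p : ℕ → ℝ,
    (∀ j < ⌈β⌉₊, 1 / (⌈β⌉₊ : ℝ) - c ≤ p j ∧ p j ≤ 1 / (⌈β⌉₊ : ℝ) + c) →
    ∑ j ∈ Finset.range ⌈β⌉₊, p j = 1 →
    ∀ᵐ x ∂(volume.restrict (Icc (0 : ℝ) (((⌈β⌉₊ : ℝ) - 1) / (β - 1)))),
      ∃ ε, IsExpansion β ε x ∧ ∀ j < ⌈β⌉₊, HasFreq ε j (p j)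

/-! ### Words -/

/-- Value of a word. -/
noncomputable def val (β : ℝ) : List (Fin 3) → ℝ
  | [] => 0
  | a :: w => (((a : ℕ) : ℝ) + val β w) / β

theorem val_append_congr (β : ℝ) (u : List (Fin 3)) {v v' : List (Fin 3)}
    (h : val β v = val β v') : val β (u ++ v) = val β (u ++ v') := by
  induction u with
  | nil => exact h
  | cons a u ih => simp only [List.cons_append, val, ih]

theorem val_rule1 {β : ℝ} (hβ : 1 < β) (h3 : β ^ 3 = 2 * β ^ 2 + 2 * β + 2) (v : List (Fin 3)) :
    val β ([1, 0, 0, 0] ++ v) = val β ([0, 2, 2, 2] ++ v) := by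
  have h0 : β ≠ 0 := by positivity
  simp only [List.cons_append, List.nil_append, val]
  generalize val β v = V
  have e1 : ((0 : Fin 3) : ℕ) = 0 := rfl
  have e2 : ((1 : Fin 3) : ℕ) = 1 := rfl
  have e3 : ((2 : Fin 3) : ℕ) = 2 := rfl
  rw [e1, e2, e3]
  push_cast
  field_simp
  linear_combination h3

theorem val_rule2 {β : ℝ} (hβ : 1 < β) (h3 : β ^ 3 = 2 * β ^ 2 + 2 * β + 2) (v : List (Fin 3)) :
    val β ([1, 2, 2, 2] ++ v) = val β ([2, 0, 0, 0] ++ v) := by
  have h0 : β ≠ 0 := by positivity
  simp only [List.cons_append, List.nil_append, val]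
  generalize val β v = V
  have e1 : ((0 : Fin 3) : ℕ) = 0 := rfl
  have e2 : ((1 : Fin 3) : ℕ) = 1 := rfl
  have e3 : ((2 : Fin 3) : ℕ) = 2 := rfl
  rw [e1, e2, e3]
  push_cast
  field_simp
  linear_combination -h3

/-- `w` contains neither `1000` nor `1222`. -/
def Avoids (w : List (Fin 3)) : Prop :=
  ¬ [1, 0, 0, 0] <:+: w ∧ ¬ [1, 2, 2, 2] <:+: w

theorem exists_normal {β : ℝ} (hβ : 1 < β) (h3 : β ^ 3 = 2 * β ^ 2 + 2 * β + 2) :
    ∀ (k : ℕ) (w : List (Fin 3)), w.count 1 = k → ∃ w' : List (Fin 3), w'.length = w.length ∧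
      val β w' = val β w ∧ w'.count 1 ≤ w.count 1 ∧ Avoids w' := by
  intro k
  induction k using Nat.strong_induction_on with
  | _ k ih =>
    intro w hw
    by_cases h1 : [1, 0, 0, 0] <:+: w
    · obtain ⟨u, v, huv⟩ := h1
      have hc : (u ++ [0, 2, 2, 2] ++ v).count 1 < w.count 1 := by
        rw [← huv]
        simp [List.count_append]
      have hl : (u ++ [0, 2, 2, 2] ++ v).length = w.length := by
        rw [← huv]; simp
      have hv : val β (u ++ [0, 2, 2, 2] ++ v) = val β w := by
        rw [← huv, List.append_assoc, List.append_assoc]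
        exact val_append_congr β u (val_rule1 hβ h3 v).symm
      obtain ⟨w', a1, a2, a3, a4⟩ := ih _ (hw ▸ hc) _ rfl
      exact ⟨w', a1.trans hl, a2.trans hv, a3.trans hc.le, a4⟩
    · by_cases h2 : [1, 2, 2, 2] <:+: w
      · obtain ⟨u, v, huv⟩ := h2
        have hc : (u ++ [2, 0, 0, 0] ++ v).count 1 < w.count 1 := by
          rw [← huv]
          simp [List.count_append]
        have hl : (u ++ [2, 0, 0, 0] ++ v).length = w.length := by
          rw [← huv]; simp
        have hv : val β (u ++ [2, 0, 0, 0] ++ v) = val β w := by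
          rw [← huv, List.append_assoc, List.append_assoc]
          exact val_append_congr β u (val_rule2 hβ h3 v).symm
        obtain ⟨w', a1, a2, a3, a4⟩ := ih _ (hw ▸ hc) _ rfl
        exact ⟨w', a1.trans hl, a2.trans hv, a3.trans hc.le, a4⟩
      · exact ⟨w, rfl, rfl, le_rfl, h1, h2⟩

/-! ### The automaton -/

/-- The states: the longest suffix read which is a proper prefix of `1000` or `1222`. -/
inductive St
  | A | B | C0 | D0 | C2 | D2

open St

/-- Transitions (`none` when a forbidden word is completed). -/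
def next : St → Fin 3 → Option St
  | A, 0 => some A | A, 1 => some B | A, 2 => some A
  | B, 0 => some C0 | B, 1 => some B | B, 2 => some C2
  | C0, 0 => some D0 | C0, 1 => some B | C0, 2 => some A
  | D0, 0 => none | D0, 1 => some B | D0, 2 => some A
  | C2, 0 => some A | C2, 1 => some B | C2, 2 => some D2
  | D2, 0 => some A | D2, 1 => some B | D2, 2 => none

/-- The word remembered by a state. -/
def mem : St → List (Fin 3)
  | A => [] | B => [1] | C0 => [1, 0] | D0 => [1, 0, 0] | C2 => [1, 2] | D2 => [1, 2, 2]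

/-- The automaton accepts. -/
def Acc : St → List (Fin 3) → Prop
  | _, [] => True
  | s, a :: w => ∃ s', next s a = some s' ∧ Acc s' w

theorem Avoids.suffix {w w' : List (Fin 3)} (h : Avoids w) (hs : w' <:+ w) : Avoids w' :=
  ⟨fun h1 => h.1 (h1.trans hs.isInfix), fun h1 => h.2 (h1.trans hs.isInfix)⟩

theorem acc_of_avoids : ∀ (w : List (Fin 3)) (s : St), Avoids (mem s ++ w) → Acc s w := by
  intro w
  induction w with
  | nil => intro s _; trivial
  | cons a w ih =>
    intro s h
    have h0 : ∀ p : List (Fin 3), mem s ++ a :: w = p ++ w → Avoids w := fun p hp =>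
      h.suffix ⟨p, hp.symm⟩
    have h1 : ∀ p : List (Fin 3), mem s ++ a :: w = p ++ ([1] ++ w) → Avoids ([1] ++ w) :=
      fun p hp => h.suffix ⟨p, hp.symm⟩
    cases s <;> fin_cases a
    · exact ⟨A, rfl, ih A (h0 [0] rfl)⟩
    · exact ⟨B, rfl, ih B (h1 [] rfl)⟩
    · exact ⟨A, rfl, ih A (h0 [2] rfl)⟩
    · exact ⟨C0, rfl, ih C0 h⟩
    · exact ⟨B, rfl, ih B (h1 [1] rfl)⟩
    · exact ⟨C2, rfl, ih C2 h⟩
    · exact ⟨D0, rfl, ih D0 h⟩
    · exact ⟨B, rfl, ih B (h1 [1, 0] rfl)⟩
    · exact ⟨A, rfl, ih A (h0 [1, 0, 2] rfl)⟩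
    · exact absurd ⟨[], w, rfl⟩ h.1
    · exact ⟨B, rfl, ih B (h1 [1, 0, 0] rfl)⟩
    · exact ⟨A, rfl, ih A (h0 [1, 0, 0, 2] rfl)⟩
    · exact ⟨A, rfl, ih A (h0 [1, 2, 0] rfl)⟩
    · exact ⟨B, rfl, ih B (h1 [1, 2] rfl)⟩
    · exact ⟨D2, rfl, ih D2 h⟩
    · exact ⟨A, rfl, ih A (h0 [1, 2, 2, 0] rfl)⟩
    · exact ⟨B, rfl, ih B (h1 [1, 2, 2] rfl)⟩
    · exact absurd ⟨[], w, rfl⟩ h.2

/-! ### The weighted multiplicity function -/

/-- `q = (197/200)³`. -/
noncomputable def q : ℝ := (197 / 200) ^ 3

theorem q_pos : 0 < q := by unfold q; positivity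

theorem q_lt : q < 1 := by unfold q; norm_num

/-- Weight of a digit. -/
noncomputable def wt (a : Fin 3) : ℝ := if a = 1 then q else 1

theorem wt_pos (a : Fin 3) : 0 < wt a := by
  unfold wt; split_ifs
  · exact q_pos
  · exact one_pos

/-- The right end of `I_β` for `m = 3`. -/
noncomputable def len (β : ℝ) : ℝ := 2 / (β - 1)

/-- Weighted number of accepted words of length `n` whose cylinder contains `x`. -/
noncomputable def F (β : ℝ) : ℕ → St → ℝ → ℝ≥0∞
  | 0, _, x => (Icc (0 : ℝ) (len β)).indicator 1 x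
  | n + 1, s, x => ∑ a : Fin 3, (next s a).elim 0
      (fun s' => ENNReal.ofReal (wt a) * F β n s' (β * x - ((a : ℕ) : ℝ)))

theorem F_measurable (β : ℝ) : ∀ (n : ℕ) (s : St), Measurable (F β n s) := by
  intro n
  induction n with
  | zero =>
    intro s
    exact measurable_one.indicator measurableSet_Icc
  | succ n ih =>
    intro s
    have : F β (n + 1) s = fun x => ∑ a : Fin 3, (next s a).elim 0
      (fun s' => ENNReal.ofReal (wt a) * F β n s' (β * x - ((a : ℕ) : ℝ))) := rfl
    rw [this]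
    apply Finset.measurable_sum
    intro a _
    cases next s a with
    | none => exact measurable_const
    | some s' =>
      simp only [Option.elim]
      exact ((ih s').comp ((measurable_const.mul measurable_id).sub measurable_const)).const_mul _

theorem F_lower {β : ℝ} (hβ : 1 < β) : ∀ (w : List (Fin 3)) (s : St) (x t : ℝ), Acc s w →
    t ∈ Icc (0 : ℝ) (len β) → x = val β w + t / β ^ w.length →
    ENNReal.ofReal (q ^ w.count 1) ≤ F β w.length s x := by
  have h0 : β ≠ 0 := by positivity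
  intro w
  induction w with
  | nil =>
    intro s x t _ ht hx
    simp only [val, List.length_nil, pow_zero, div_one, zero_add] at hx
    simp only [List.count_nil, pow_zero, ENNReal.ofReal_one, List.length_nil, F]
    rw [hx, indicator_of_mem ht]
    exact le_rfl
  | cons a w ih =>
    intro s x t hacc ht hx
    obtain ⟨s', hs', hacc'⟩ := hacc
    have h1 : β * x - ((a : ℕ) : ℝ) = val β w + t / β ^ w.length := by
      rw [hx]
      simp only [val, List.length_cons, pow_succ]
      field_simp
      ring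
    have h2 := ih s' _ t hacc' ht h1
    rw [List.length_cons]
    have h3 : ENNReal.ofReal (q ^ (a :: w).count 1) =
        ENNReal.ofReal (wt a) * ENNReal.ofReal (q ^ w.count 1) := by
      rw [← ENNReal.ofReal_mul (wt_pos a).le]
      congr 1
      unfold wt
      rw [List.count_cons]
      by_cases ha : a = 1
      · simp [ha, pow_succ, mul_comm]
      · simp [ha]
    rw [h3]
    calc ENNReal.ofReal (wt a) * ENNReal.ofReal (q ^ w.count 1)
        ≤ ENNReal.ofReal (wt a) * F β w.length s' (β * x - ((a : ℕ) : ℝ)) := by gcongr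
      _ = (next s a).elim 0
          (fun s' => ENNReal.ofReal (wt a) * F β w.length s' (β * x - ((a : ℕ) : ℝ))) := by
          rw [hs']; rfl
      _ ≤ F β (w.length + 1) s x := by
          exact Finset.single_le_sum (f := fun a : Fin 3 => (next s a).elim 0
            (fun s' => ENNReal.ofReal (wt a) * F β w.length s' (β * x - ((a : ℕ) : ℝ))))
            (fun _ _ => bot_le) (Finset.mem_univ a)

/-- `μ = 2.8754`. -/
noncomputable def mu : ℝ := 28754 / 10000

/-- The supersolution. -/
noncomputable def hh : St → ℝ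
  | A => 1 | B => 916 / 1000 | C0 => 87906 / 100000 | D0 => 65223 / 100000
  | C2 => 87906 / 100000 | D2 => 65223 / 100000

theorem hh_pos (s : St) : 0 < hh s := by cases s <;> norm_num [hh]

theorem hh_le (s : St) : hh s ≤ 1 := by cases s <;> norm_num [hh]

theorem hh_super (s : St) : ∑ a : Fin 3, (next s a).elim 0 (fun s' => wt a * hh s') ≤
    mu * hh s := by
  have e0 : ¬ ((0 : Fin 3) = 1) := by decide
  have e2 : ¬ ((2 : Fin 3) = 1) := by decide
  cases s <;> simp only [Fin.sum_univ_three, next, Option.elim, wt, hh, mu, q, if_neg e0,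
    if_neg e2, if_true] <;> norm_num

theorem lintegral_affine {β : ℝ} (hβ : 1 < β) (f : ℝ → ℝ≥0∞) (hf : Measurable f) (a : ℝ) :
    ∫⁻ x, f (β * x - a) = ENNReal.ofReal β⁻¹ * ∫⁻ x, f x := by
  have h0 : β ≠ 0 := by positivity
  have h1 : ∫⁻ x, f (β * x - a) = ∫⁻ y, f (y - a) ∂(Measure.map (fun x => β * x) volume) := by
    exact (lintegral_map (f := fun y => f (y - a)) (g := fun x : ℝ => β * x)
      (hf.comp (measurable_id.sub_const a)) (measurable_const_mul β)).symm
  rw [h1, Real.map_volume_mul_left h0, lintegral_smul_measure, abs_of_pos (by positivity),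
    lintegral_sub_right_eq_self f a, smul_eq_mul]

theorem F_integral {β : ℝ} (hβ : 1 < β) : ∀ (n : ℕ) (s : St),
    ∫⁻ x, F β n s x ≤ ENNReal.ofReal (hh s * (mu / β) ^ n * (2 * len β)) := by
  have h0 : 0 < β := by positivity
  have hlen : 0 < len β := by
    unfold len
    have : 0 < β - 1 := by linarith
    positivity
  have hmu : 0 < mu := by unfold mu; norm_num
  intro n
  induction n with
  | zero =>
    intro s
    have h1 : ∫⁻ x, F β 0 s x = ENNReal.ofReal (len β) := by
      change ∫⁻ x, (Icc (0 : ℝ) (len β)).indicator 1 x = _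
      rw [lintegral_indicator_one measurableSet_Icc, Real.volume_Icc, sub_zero]
    rw [h1]
    apply ENNReal.ofReal_le_ofReal
    have : 1 / 2 ≤ hh s := by cases s <;> norm_num [hh]
    rw [pow_zero, mul_one]
    nlinarith
  | succ n ih =>
    intro s
    have hK : 0 < (mu / β) ^ n * (2 * len β) := by positivity
    have h1 : ∫⁻ x, F β (n + 1) s x = ∑ a : Fin 3, ∫⁻ x, (next s a).elim 0
        (fun s' => ENNReal.ofReal (wt a) * F β n s' (β * x - ((a : ℕ) : ℝ))) := by
      change ∫⁻ x, ∑ a : Fin 3, (next s a).elim 0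
        (fun s' => ENNReal.ofReal (wt a) * F β n s' (β * x - ((a : ℕ) : ℝ))) = _
      rw [lintegral_finsetSum]
      intro a _
      cases next s a with
      | none => exact measurable_const
      | some s' =>
        simp only [Option.elim]
        exact (((F_measurable β n s').comp
          ((measurable_const.mul measurable_id).sub measurable_const))).const_mul _
    have h2 : ∀ a : Fin 3, ∫⁻ x, (next s a).elim 0
        (fun s' => ENNReal.ofReal (wt a) * F β n s' (β * x - ((a : ℕ) : ℝ))) ≤
        ENNReal.ofReal (((next s a).elim 0 (fun s' => wt a * hh s')) *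
          (β⁻¹ * ((mu / β) ^ n * (2 * len β)))) := by
      intro a
      cases next s a with
      | none => simp
      | some s' =>
        simp only [Option.elim]
        have hm : Measurable (fun x : ℝ => F β n s' (β * x - ((a : ℕ) : ℝ))) :=
          (F_measurable β n s').comp ((measurable_const_mul β).sub_const _)
        rw [lintegral_const_mul _ hm, lintegral_affine hβ _ (F_measurable β n s')]
        calc ENNReal.ofReal (wt a) * (ENNReal.ofReal β⁻¹ * ∫⁻ x, F β n s' x)
            ≤ ENNReal.ofReal (wt a) * (ENNReal.ofReal β⁻¹ *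
              ENNReal.ofReal (hh s' * (mu / β) ^ n * (2 * len β))) := by
              gcongr; exact ih s'
          _ = ENNReal.ofReal (wt a * hh s' * (β⁻¹ * ((mu / β) ^ n * (2 * len β)))) := by
              rw [← ENNReal.ofReal_mul (by positivity), ← ENNReal.ofReal_mul (wt_pos a).le]
              congr 1
              ring
    rw [h1]
    refine (Finset.sum_le_sum fun a _ => h2 a).trans ?_
    rw [← ENNReal.ofReal_sum_of_nonneg]
    · apply ENNReal.ofReal_le_ofReal
      rw [← Finset.sum_mul]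
      calc (∑ a : Fin 3, (next s a).elim 0 (fun s' => wt a * hh s')) *
            (β⁻¹ * ((mu / β) ^ n * (2 * len β)))
          ≤ (mu * hh s) * (β⁻¹ * ((mu / β) ^ n * (2 * len β))) := by
            gcongr; exact hh_super s
        _ = hh s * (mu / β) ^ (n + 1) * (2 * len β) := by
            rw [pow_succ]
            field_simp
    · intro a _
      have : 0 ≤ (next s a).elim 0 (fun s' => wt a * hh s') := by
        cases next s a with
        | none => exact le_rfl
        | some s' => exact (mul_pos (wt_pos a) (hh_pos s')).le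
      positivity

/-! ### Expansions and their prefixes -/

/-- Prefix of length `n`. -/
def pre (e : ℕ → Fin 3) : ℕ → List (Fin 3)
  | 0 => []
  | n + 1 => e 0 :: pre (fun i => e (i + 1)) n

theorem pre_length (n : ℕ) : ∀ e : ℕ → Fin 3, (pre e n).length = n := by
  induction n with
  | zero => intro e; rfl
  | succ n ih => intro e; simp [pre, ih]

theorem pre_count (n : ℕ) : ∀ e : ℕ → Fin 3,
    (pre e n).count 1 = ((Finset.range n).filter (fun i => e i = 1)).card := by
  induction n with
  | zero => intro e; rfl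
  | succ n ih =>
    intro e
    rw [Finset.card_filter, Finset.sum_range_succ', pre, List.count_cons, ih, Finset.card_filter]
    simp

theorem pre_val {β : ℝ} (hβ : 1 < β) (n : ℕ) : ∀ (e : ℕ → Fin 3) (x : ℝ),
    HasSum (fun i : ℕ => (((e i : Fin 3) : ℕ) : ℝ) / β ^ (i + 1)) x →
    ∃ t ∈ Icc (0 : ℝ) (len β), x = val β (pre e n) + t / β ^ (pre e n).length := by
  have h0 : 0 < β := by positivity
  induction n with
  | zero =>
    intro e x hx
    refine ⟨x, ⟨?_, ?_⟩, ?_⟩
    · exact hx.nonneg fun i => by positivity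
    · have h1 : HasSum (fun i : ℕ => (2 : ℝ) / β ^ (i + 1)) (len β) := by
        have h2 := (hasSum_geometric_of_lt_one (r := β⁻¹) (by positivity)
          (inv_lt_one_of_one_lt₀ hβ)).mul_left (2 / β)
        have h3 : 2 / β * (1 - β⁻¹)⁻¹ = len β := by
          unfold len
          have : β - 1 ≠ 0 := by linarith
          field_simp
        rw [h3] at h2
        refine h2.congr_fun ?_
        intro i
        rw [pow_succ, inv_pow]
        field_simp
      refine hasSum_le ?_ hx h1
      intro i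
      have h2 : (((e i : Fin 3) : ℕ) : ℝ) ≤ 2 := by
        have := (e i).isLt
        exact_mod_cast (show ((e i : Fin 3) : ℕ) ≤ 2 by omega)
      gcongr
    · simp [pre, val]
  | succ n ih =>
    intro e x hx
    have h1 : HasSum (fun i : ℕ => (((e (i + 1) : Fin 3) : ℕ) : ℝ) / β ^ (i + 1))
        (β * x - ((e 0 : Fin 3) : ℕ)) := by
      have h2 := (hasSum_nat_add_iff' 1).2 hx
      have h3 := h2.mul_left β
      simp only [Finset.range_one, Finset.sum_singleton, zero_add, pow_one] at h3
      have h4 : β * (x - (((e 0 : Fin 3) : ℕ) : ℝ) / β) = β * x - ((e 0 : Fin 3) : ℕ) := by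
        field_simp
      rw [h4] at h3
      refine h3.congr_fun ?_
      intro i
      rw [pow_succ β (i + 1)]
      field_simp
    obtain ⟨t, ht, hxt⟩ := ih (fun i => e (i + 1)) _ h1
    refine ⟨t, ht, ?_⟩
    simp only [pre, val, List.length_cons, pow_succ]
    have h5 : x = ((e 0 : Fin 3) : ℕ) / β + (β * x - ((e 0 : Fin 3) : ℕ)) / β := by
      field_simp
      ring
    rw [h5, hxt]
    field_simp
    ring

/-! ### The main estimate -/

theorem beta_bounds {β : ℝ} (hβ : 1 < β) (h3 : β ^ 3 = 2 * β ^ 2 + 2 * β + 2) :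
    29196 / 10000 < β ∧ β < 3 := by
  constructor
  · by_contra h
    push Not at h
    nlinarith [sq_nonneg (β - 1), sq_nonneg β, mul_nonneg (sub_nonneg.2 hβ.le) (sub_nonneg.2 h),
      mul_nonneg (mul_nonneg (sub_nonneg.2 hβ.le) (sub_nonneg.2 hβ.le)) (sub_nonneg.2 h)]
  · by_contra h
    push Not at h
    nlinarith [mul_nonneg (sub_nonneg.2 h) (sub_nonneg.2 h),
      mul_nonneg (mul_nonneg (sub_nonneg.2 h) (sub_nonneg.2 h)) (sub_nonneg.2 h)]

theorem main_words {β : ℝ} (hβ : 1 < β) (h3 : β ^ 3 = 2 * β ^ 2 + 2 * β + 2) :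
    ∃ κ : ℝ, 0 < κ ∧ ∀ᵐ x : ℝ, ∀ e : ℕ → Fin 3,
      HasSum (fun i : ℕ => (((e i : Fin 3) : ℕ) : ℝ) / β ^ (i + 1)) x →
      ∀ᶠ n : ℕ in atTop, (1 / 3 + κ) * n ≤ (pre e n).count 1 := by
  have hb := (beta_bounds hβ h3).1
  have h0 : 0 < β := by positivity
  have hmu : 0 < mu := by unfold mu; norm_num
  have hlen : 0 < len β := by
    unfold len
    have : 0 < β - 1 := by linarith
    positivity
  set r : ℝ := 197 / 200 with hr
  have hr0 : 0 < r := by norm_num [hr]
  have hlogr : Real.log r < 0 := Real.log_neg hr0 (by norm_num [hr])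
  have hlogq : Real.log q = 3 * Real.log r := by
    unfold q
    rw [Real.log_pow]
    push_cast
    rfl
  have hA : Real.log mu < Real.log β + Real.log r := by
    rw [← Real.log_mul h0.ne' hr0.ne']
    apply Real.log_lt_log hmu
    unfold mu
    rw [hr]
    linarith
  obtain ⟨κ, hκ, hκ2⟩ : ∃ κ : ℝ, 0 < κ ∧
      Real.log mu - Real.log β - (1 / 3 + κ) * Real.log q < 0 := by
    refine ⟨(Real.log β + Real.log r - Real.log mu) / (2 * (-3 * Real.log r)), ?_, ?_⟩
    · apply div_pos <;> linarith
    · rw [hlogq]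
      have h1 : (Real.log β + Real.log r - Real.log mu) / (2 * (-3 * Real.log r)) *
          (3 * Real.log r) = -(Real.log β + Real.log r - Real.log mu) / 2 := by
        have : Real.log r ≠ 0 := hlogr.ne
        field_simp
      rw [add_mul, h1]
      linarith
  refine ⟨κ, hκ, ?_⟩
  set δ : ℝ := Real.exp ((1 / 3 + κ) * Real.log q) with hδ
  have hδ0 : 0 < δ := Real.exp_pos _
  set ρ : ℝ := mu / β / δ with hρ
  have hρ0 : 0 < ρ := by positivity
  have hρ1 : ρ < 1 := by
    rw [← Real.log_neg_iff hρ0, hρ, Real.log_div (by positivity) hδ0.ne',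
      Real.log_div hmu.ne' h0.ne', hδ, Real.log_exp]
    exact hκ2
  -- Borel-Cantelli
  have hS : ∑' n : ℕ, volume {x : ℝ | ENNReal.ofReal (δ ^ n) ≤ F β n A x} ≠ ∞ := by
    have h1 : ∀ n : ℕ, volume {x : ℝ | ENNReal.ofReal (δ ^ n) ≤ F β n A x} ≤
        ENNReal.ofReal (2 * len β * ρ ^ n) := by
      intro n
      have h2 : ENNReal.ofReal (δ ^ n) ≠ 0 := by
        rw [Ne, ENNReal.ofReal_eq_zero, not_le]; positivity
      refine (meas_ge_le_lintegral_div (F_measurable β n A).aemeasurable h2
        ENNReal.ofReal_ne_top).trans ?_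
      rw [ENNReal.div_le_iff h2 ENNReal.ofReal_ne_top, ← ENNReal.ofReal_mul (by positivity)]
      refine (F_integral hβ n A).trans (ENNReal.ofReal_le_ofReal (le_of_eq ?_))
      have h3 : ρ ^ n * δ ^ n = (mu / β) ^ n := by
        rw [← mul_pow, hρ, div_mul_cancel₀ _ hδ0.ne']
      rw [← h3]
      simp only [hh, one_mul]
      ring
    refine ne_top_of_le_ne_top ?_ (ENNReal.tsum_le_tsum h1)
    rw [← ENNReal.ofReal_tsum_of_nonneg (fun n => by positivity)
      ((summable_geometric_of_lt_one hρ0.le hρ1).mul_left _)]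
    exact ENNReal.ofReal_ne_top
  filter_upwards [ae_eventually_notMem hS] with x hx e he
  filter_upwards [hx] with n hn
  by_contra hcon
  push Not at hcon
  apply hn
  obtain ⟨t, ht, hxt⟩ := pre_val hβ n e x he
  obtain ⟨w', hl, hv, hc, hav⟩ := exists_normal hβ h3 _ (pre e n) rfl
  have hacc := acc_of_avoids w' A hav
  have h4 : x = val β w' + t / β ^ w'.length := by rw [hv, hl]; exact hxt
  have h5 := F_lower hβ w' A x t hacc ht h4
  have hl' : w'.length = n := hl.trans (pre_length n e)
  rw [hl'] at h5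
  refine le_trans (ENNReal.ofReal_le_ofReal ?_) h5
  have h6 : q ^ w'.count 1 = Real.exp ((w'.count 1 : ℝ) * Real.log q) := by
    rw [← Real.rpow_natCast, Real.rpow_def_of_pos q_pos, mul_comm]
  rw [h6, hδ, ← Real.exp_nat_mul]
  apply Real.exp_le_exp.2
  have h7 : (w'.count 1 : ℝ) ≤ (1 / 3 + κ) * n := by
    have : (w'.count 1 : ℝ) ≤ (pre e n).count 1 := by exact_mod_cast hc
    linarith
  have h8 : Real.log q < 0 := Real.log_neg q_pos q_lt
  nlinarith

/-- **Disproof of Q1.**  A real number `β > 1` with `β³ = 2β² + 2β + 2` exists, and any such `β`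
satisfies: `⌈β⌉ = 3`, `β` is not an integer; for some `κ > 0` and almost every real `x`, every
`β`-expansion of `x` has at least `(1/3 + κ) n` digits `1` among the first `n`, for all large `n`;
in particular almost every `x` has no expansion with all frequencies `1/3`, and `β` is not an
almost variational frequency base. -/
theorem result :
    (∃ β : ℝ, 1 < β ∧ β ^ 3 = 2 * β ^ 2 + 2 * β + 2) ∧
    ∀ β : ℝ, 1 < β → β ^ 3 = 2 * β ^ 2 + 2 * β + 2 →
      ⌈β⌉₊ = 3 ∧ (∀ n : ℤ, β ≠ n) ∧
      (∃ κ : ℝ, 0 < κ ∧ ∀ᵐ x : ℝ, ∀ ε : ℕ → ℕ, IsExpansion β ε x →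
        ∀ᶠ n : ℕ in atTop, (1 / 3 + κ) * n ≤ digitCount ε 1 n) ∧
      (∀ᵐ x : ℝ, ¬ ∃ ε : ℕ → ℕ, IsExpansion β ε x ∧ ∀ j < 3, HasFreq ε j (1 / 3)) ∧
      ¬ AlmostVariational β := by
  constructor
  · have h1 : (0 : ℝ) ∈ Icc ((fun x : ℝ => x ^ 3 - (2 * x ^ 2 + 2 * x + 2)) 2)
        ((fun x : ℝ => x ^ 3 - (2 * x ^ 2 + 2 * x + 2)) 3) := by
      constructor <;> norm_num
    obtain ⟨β, hβ, hβ2⟩ := intermediate_value_Icc
      (f := fun x : ℝ => x ^ 3 - (2 * x ^ 2 + 2 * x + 2)) (by norm_num : (2 : ℝ) ≤ 3)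
      (Continuous.continuousOn (by fun_prop)) h1
    refine ⟨β, by linarith [hβ.1], ?_⟩
    simp only at hβ2
    linarith
  · intro β hβ h3
    obtain ⟨hb1, hb2⟩ := beta_bounds hβ h3
    have hceil : ⌈β⌉₊ = 3 := by
      rw [Nat.ceil_eq_iff (by norm_num)]
      constructor
      · norm_num; linarith
      · norm_num; linarith
    have hint : ∀ n : ℤ, β ≠ n := by
      intro n hn
      have h4 : (2 : ℤ) < n := by
        have : ((2 : ℤ) : ℝ) < n := by rw [← hn]; push_cast; linarith
        exact_mod_cast this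
      have h5 : n < 3 := by
        have : (n : ℝ) < ((3 : ℤ) : ℝ) := by rw [← hn]; push_cast; linarith
        exact_mod_cast this
      omega
    obtain ⟨κ, hκ, hae⟩ := main_words hβ h3
    have hmain : ∀ᵐ x : ℝ, ∀ ε : ℕ → ℕ, IsExpansion β ε x →
        ∀ᶠ n : ℕ in atTop, (1 / 3 + κ) * n ≤ digitCount ε 1 n := by
      filter_upwards [hae] with x hx ε hε
      have hlt : ∀ i, ε i < 3 := fun i => hceil ▸ hε.1 i
      have h6 := hx (fun i => ⟨ε i, hlt i⟩) hε.2
      filter_upwards [h6] with n hn
      refine hn.trans (le_of_eq ?_)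
      rw [pre_count]
      unfold digitCount
      congr 2
      ext i
      simp only [Finset.mem_filter, Fin.ext_iff]
      rfl
    have hno : ∀ᵐ x : ℝ, ¬ ∃ ε : ℕ → ℕ, IsExpansion β ε x ∧ ∀ j < 3, HasFreq ε j (1 / 3) := by
      filter_upwards [hmain] with x hx
      rintro ⟨ε, hε, hf⟩
      have h7 := hx ε hε
      have h8 := hf 1 (by norm_num)
      have h9 : ∀ᶠ n : ℕ in atTop, (digitCount ε 1 n : ℝ) / n < 1 / 3 + κ :=
        h8.eventually (gt_mem_nhds (by linarith))
      obtain ⟨n, h10, h11, h12⟩ := (h7.and (h9.and (eventually_gt_atTop 0))).exists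
      have h13 : (0 : ℝ) < n := by exact_mod_cast h12
      rw [div_lt_iff₀ h13] at h11
      linarith
    refine ⟨hceil, hint, ⟨κ, hκ, hmain⟩, hno, ?_⟩
    rintro ⟨c, hc, h⟩
    have h14 := h (fun _ => 1 / 3) (by
      intro j _
      rw [hceil]
      push_cast
      constructor <;> linarith) (by
      rw [hceil]
      simp)
    rw [hceil] at h14
    have h15 := h14.and (ae_restrict_of_ae hno)
    have h16 : ∀ᵐ x ∂(volume.restrict (Icc (0 : ℝ) ((((3 : ℕ) : ℝ) - 1) / (β - 1)))), False := by
      filter_upwards [h15] with x hx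
      exact hx.2 hx.1
    rw [ae_iff] at h16
    simp only [not_false_eq_true, Set.ofPred_true, Measure.restrict_apply_univ, Real.volume_Icc,
      ENNReal.ofReal_eq_zero] at h16
    have h17 : 0 < ((3 : ℕ) - 1 : ℝ) / (β - 1) := by
      push_cast
      apply div_pos <;> linarith
    linarith

end Pool.Agent.Results.MP_842b9f_an.MiddleDigit
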